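import Mathlib

/-!
# MbH / Count

Number of monomials of total degree `≤ n` in two variables.
PROOF. `restrictTotalDegree (Fin 2) F n` is `Finsupp.supported`-like: the span of the monomials `m` with
`m.sum (fun _ e => e) ≤ n` (`MvPolynomial.mem_restrictTotalDegree`, `restrictTotalDegree` is `restrictSupport`);
these monomials are linearly independent (`MvPolynomial.basisMonomials`), their number is the number of
pairs `(i,j)` with `i + j ≤ n`, which is `∑_{i ≤ n} (n + 1 - i) = (n+1)(n+2)/2`.
-/

namespace MbH

open MvPolynomial

theorem rtd_finite (F : Type*) [Field F] (n : ℕ) :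
    Module.Finite F (restrictTotalDegree (Fin 2) F n) := inferInstance

theorem rtd_finrank (F : Type*) [Field F] (n : ℕ) :
    Module.finrank F (restrictTotalDegree (Fin 2) F n) = (n + 1) * (n + 2) / 2 := by
  classical
  have h1 : Module.finrank F (restrictTotalDegree (Fin 2) F n) =
      Nat.card {s : Fin 2 →₀ ℕ | (s.sum fun _ e => e) ≤ n} :=
    Module.finrank_eq_nat_card_basis (basisRestrictSupport F _)
  rw [h1]
  have hsum : ∀ s : Fin 2 →₀ ℕ, (s.sum fun _ e => e) = s 0 + s 1 := by
    intro s
    rw [Finsupp.sum_fintype _ _ (fun _ => rfl), Fin.sum_univ_two]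
  let S : Finset (Σ _ : ℕ, ℕ) := (Finset.range (n + 1)).sigma (fun i => Finset.range (n + 1 - i))
  have e : {s : Fin 2 →₀ ℕ | (s.sum fun _ e => e) ≤ n} ≃ S :=
    { toFun := fun s => ⟨⟨s.1 0, s.1 1⟩, by
        have h := s.2
        change (s.1.sum fun _ e => e) ≤ n at h
        rw [hsum] at h
        simp only [S, Finset.mem_sigma, Finset.mem_range]
        omega⟩
      invFun := fun p => ⟨Finsupp.equivFunOnFinite.symm ![p.1.1, p.1.2], by
        have h := p.2
        simp only [S, Finset.mem_sigma, Finset.mem_range] at h
        change ((Finsupp.equivFunOnFinite.symm ![p.1.1, p.1.2]).sum fun _ e => e) ≤ n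
        rw [hsum]
        simp only [Finsupp.equivFunOnFinite_symm_apply_apply, Matrix.cons_val_zero,
          Matrix.cons_val_one, Matrix.cons_val_fin_one]
        omega⟩
      left_inv := by
        intro s
        apply Subtype.ext
        ext i
        fin_cases i <;> simp
      right_inv := by
        intro p
        apply Subtype.ext
        simp }
  rw [Nat.card_congr e, Nat.card_eq_fintype_card, Fintype.card_coe, Finset.card_sigma]
  simp only [Finset.card_range]
  have h2 : ∑ i ∈ Finset.range (n + 1), (n + 1 - i) = ∑ i ∈ Finset.range (n + 2), i := by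
    rw [← Finset.sum_range_reflect]
    rw [Finset.sum_range_succ' (fun i => i) (n + 1), add_zero]
    refine Finset.sum_congr rfl fun i hi => ?_
    rw [Finset.mem_range] at hi
    omega
  rw [h2, Finset.sum_range_id, Nat.mul_comm]
  simp

theorem rtd_finite3 (F : Type*) [Field F] (n : ℕ) :
    Module.Finite F (restrictTotalDegree (Fin 3) F n) := inferInstance

end MbH
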