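import Mathlib
import Pool.Agent.H76.MB.Count

/-!
# MbH / Bez: affine Bezout bound in linear form

PROOF. Let `p, q` be the total degrees, `R_n` the polynomials of total degree `≤ n`, `N n = (n+1)(n+2)/2 = dim R_n`.
Fix `t ≥ p + q`.  The maps `A ↦ P A` on `R_(t-p)` and `B ↦ Q B` on `R_(t-q)` have values in `R_t`, both injective,
and their images meet in `P Q R_(t-p-q)` only: if `P A = Q B` then `Q ∣ P A`, so `Q ∣ A`
(`IsRelPrime.dvd_of_dvd_mul_left`, UFD gives `DecompositionMonoid`), `A = Q C`, `deg C = deg A - q` (or `A = 0`)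
(`totalDegree_mul_of_isDomain`).  Hence `dim (P R_(t-p) + Q R_(t-q)) ≥ N (t-p) + N (t-q) - N (t-p-q)` and this
space lies in the kernel of `φ`, so `dim φ(R_t) ≤ N t - N (t-p) - N (t-q) + N (t-p-q) = p q`.
Every finite subset of `M` lies in `φ(R_t)` for `t` large, hence every linearly independent finite family of `M`
has at most `p q` elements: `M` is finite dimensional of dimension `≤ p q`.
-/

namespace MbH

open MvPolynomial

private theorem bez_finrank_map {F : Type*} [Field F] (P : MvPolynomial (Fin 2) F) (hP : P ≠ 0)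
    (n : ℕ) :
    Module.finrank F ((restrictTotalDegree (Fin 2) F n).map (LinearMap.mulLeft F P)) =
      (n + 1) * (n + 2) / 2 := by
  have hinj : Function.Injective (LinearMap.mulLeft F P) := by
    intro a b hab
    simpa [LinearMap.mulLeft_apply, hP] using hab
  rw [← rtd_finrank F n]
  exact (LinearEquiv.finrank_eq
    (Submodule.equivMapOfInjective (LinearMap.mulLeft F P) hinj (restrictTotalDegree (Fin 2) F n))).symm

private theorem bez_arith (p q s : ℕ) :
    (p + q + s + 1) * (p + q + s + 2) / 2 + (s + 1) * (s + 2) / 2 =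
      p * q + ((q + s + 1) * (q + s + 2) / 2 + (p + s + 1) * (p + s + 2) / 2) := by
  have hev : ∀ n : ℕ, 2 * ((n + 1) * (n + 2) / 2) = (n + 1) * (n + 2) := by
    intro n
    have : 2 ∣ (n + 1) * (n + 2) := by
      have h := Nat.even_mul_succ_self (n + 1)
      exact h.two_dvd
    omega
  have h1 := hev (p + q + s)
  have h2 := hev s
  have h3 := hev (q + s)
  have h4 := hev (p + s)
  have h5 : (p + q + s + 1) * (p + q + s + 2) + (s + 1) * (s + 2) =
      2 * (p * q) + ((q + s + 1) * (q + s + 2) + (p + s + 1) * (p + s + 2)) := by ring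
  omega

/-- the dimension count at level `t` -/
theorem bez_level {F : Type*} [Field F] {M : Type*} [AddCommGroup M] [Module F M]
    (P Q : MvPolynomial (Fin 2) F) (hP : P ≠ 0) (hQ : Q ≠ 0) (hPQ : IsRelPrime P Q)
    (φ : MvPolynomial (Fin 2) F →ₗ[F] M) (h1 : ∀ A, φ (P * A) = 0) (h2 : ∀ A, φ (Q * A) = 0)
    (t : ℕ) (ht : P.totalDegree + Q.totalDegree ≤ t) :
    Module.finrank F ((restrictTotalDegree (Fin 2) F t).map φ) ≤ P.totalDegree * Q.totalDegree := by
  classical
  obtain ⟨s, rfl⟩ := Nat.exists_eq_add_of_le ht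
  set p := P.totalDegree with hp
  set q := Q.totalDegree with hq
  have := rtd_finite F (p + q + s)
  have := rtd_finite F (q + s)
  have := rtd_finite F (p + s)
  have := rtd_finite F s
  set R := restrictTotalDegree (Fin 2) F (p + q + s) with hR
  set S1 := (restrictTotalDegree (Fin 2) F (q + s)).map (LinearMap.mulLeft F P) with hS1
  set S2 := (restrictTotalDegree (Fin 2) F (p + s)).map (LinearMap.mulLeft F Q) with hS2
  set S3 := (restrictTotalDegree (Fin 2) F s).map (LinearMap.mulLeft F (P * Q)) with hS3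
  have hS1R : S1 ≤ R := by
    rintro _ ⟨A, hA, rfl⟩
    rw [hR, mem_restrictTotalDegree, LinearMap.mulLeft_apply]
    have hA' : A.totalDegree ≤ q + s := (mem_restrictTotalDegree _ _ _).1 hA
    have := totalDegree_mul P A
    omega
  have hS2R : S2 ≤ R := by
    rintro _ ⟨A, hA, rfl⟩
    rw [hR, mem_restrictTotalDegree, LinearMap.mulLeft_apply]
    have hA' : A.totalDegree ≤ p + s := (mem_restrictTotalDegree _ _ _).1 hA
    have := totalDegree_mul Q A
    omega
  have hinf : S1 ⊓ S2 ≤ S3 := by
    rintro G ⟨⟨A, hA, hAG⟩, ⟨B, hB, hBG⟩⟩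
    rw [LinearMap.mulLeft_apply] at hAG hBG
    by_cases hA0 : A = 0
    · subst hA0
      have : G = 0 := by rw [← hAG, mul_zero]
      rw [this]
      exact Submodule.zero_mem _
    have hdvd : Q ∣ P * A := ⟨B, by rw [hAG, hBG]⟩
    have hQA : Q ∣ A := hPQ.symm.dvd_of_dvd_mul_left hdvd
    obtain ⟨C, rfl⟩ := hQA
    have hC0 : C ≠ 0 := by
      rintro rfl
      exact hA0 (mul_zero _)
    have hdeg : (Q * C).totalDegree = Q.totalDegree + C.totalDegree :=
      totalDegree_mul_of_isDomain hQ hC0
    have hA' : (Q * C).totalDegree ≤ q + s := (mem_restrictTotalDegree _ _ _).1 hA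
    refine ⟨C, (mem_restrictTotalDegree _ _ _).2 (by omega), ?_⟩
    rw [LinearMap.mulLeft_apply, ← hAG, mul_assoc]
  have hsup : (S1 ⊔ S2) ≤ R ⊓ LinearMap.ker φ := by
    refine sup_le (le_inf hS1R ?_) (le_inf hS2R ?_)
    · rintro _ ⟨A, -, rfl⟩
      rw [LinearMap.mem_ker, LinearMap.mulLeft_apply]
      exact h1 A
    · rintro _ ⟨A, -, rfl⟩
      rw [LinearMap.mem_ker, LinearMap.mulLeft_apply]
      exact h2 A
  have : FiniteDimensional F S1 := by rw [hS1]; infer_instance
  have : FiniteDimensional F S2 := by rw [hS2]; infer_instance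
  have : FiniteDimensional F S3 := by rw [hS3]; infer_instance
  have hadd := Submodule.finrank_sup_add_finrank_inf_eq S1 S2
  have hf1 : Module.finrank F S1 = (q + s + 1) * (q + s + 2) / 2 := bez_finrank_map P hP _
  have hf2 : Module.finrank F S2 = (p + s + 1) * (p + s + 2) / 2 := bez_finrank_map Q hQ _
  have hf3 : Module.finrank F S3 = (s + 1) * (s + 2) / 2 :=
    bez_finrank_map (P * Q) (mul_ne_zero hP hQ) _
  have hle3 : Module.finrank F (S1 ⊓ S2 : Submodule F (MvPolynomial (Fin 2) F)) ≤
      Module.finrank F S3 := Submodule.finrank_mono hinf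
  have : FiniteDimensional F (R ⊓ LinearMap.ker φ : Submodule F (MvPolynomial (Fin 2) F)) := by
    infer_instance
  have hleK : Module.finrank F (S1 ⊔ S2 : Submodule F (MvPolynomial (Fin 2) F)) ≤
      Module.finrank F (R ⊓ LinearMap.ker φ : Submodule F (MvPolynomial (Fin 2) F)) :=
    Submodule.finrank_mono hsup
  have hrn := LinearMap.finrank_range_add_finrank_ker (φ.domRestrict R)
  have hrange : LinearMap.range (φ.domRestrict R) = R.map φ := by
    ext m
    simp [Submodule.mem_map]
  have hker : Module.finrank F (LinearMap.ker (φ.domRestrict R)) =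
      Module.finrank F (R ⊓ LinearMap.ker φ : Submodule F (MvPolynomial (Fin 2) F)) := by
    have hmap : (LinearMap.ker (φ.domRestrict R)).map R.subtype = R ⊓ LinearMap.ker φ := by
      ext m
      simp only [Submodule.mem_map, LinearMap.mem_ker, Submodule.mem_inf]
      constructor
      · rintro ⟨y, hy, rfl⟩
        exact ⟨y.2, hy⟩
      · rintro ⟨hm, hφ⟩
        exact ⟨⟨m, hm⟩, hφ, rfl⟩
    rw [← hmap]
    exact LinearEquiv.finrank_eq
      (Submodule.equivMapOfInjective R.subtype R.injective_subtype _)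
  have hRf : Module.finrank F R = (p + q + s + 1) * (p + q + s + 2) / 2 := rtd_finrank F _
  rw [hrange, hker, hRf] at hrn
  have har := bez_arith p q s
  omega

theorem bezout {F : Type*} [Field F] {M : Type*} [AddCommGroup M] [Module F M]
    (P Q : MvPolynomial (Fin 2) F) (hP : P ≠ 0) (hQ : Q ≠ 0) (hPQ : IsRelPrime P Q)
    (φ : MvPolynomial (Fin 2) F →ₗ[F] M) (h1 : ∀ A, φ (P * A) = 0) (h2 : ∀ A, φ (Q * A) = 0)
    (hs : Function.Surjective φ) :
    Module.Finite F M ∧ Module.finrank F M ≤ P.totalDegree * Q.totalDegree := by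
  classical
  have hrk : Module.rank F M ≤ (P.totalDegree * Q.totalDegree : ℕ) := by
    refine rank_le ?_
    intro s hsl
    choose g hg using hs
    set t := P.totalDegree + Q.totalDegree + s.sup (fun m => (g m).totalDegree) with ht
    have := rtd_finite F t
    have hsub : Submodule.span F (s : Set M) ≤ (restrictTotalDegree (Fin 2) F t).map φ := by
      rw [Submodule.span_le]
      intro m hm
      refine ⟨g m, (mem_restrictTotalDegree _ _ _).2 ?_, hg m⟩
      have : (g m).totalDegree ≤ s.sup (fun m => (g m).totalDegree) :=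
        Finset.le_sup (f := fun m => (g m).totalDegree) (by exact_mod_cast hm)
      omega
    have hcard : Module.finrank F (Submodule.span F (s : Set M)) = s.card :=
      finrank_span_finset_eq_card hsl
    have hmono := Submodule.finrank_mono hsub
    have hlev := bez_level P Q hP hQ hPQ φ h1 h2 t (by omega)
    omega
  have hfin : Module.Finite F M :=
    Module.rank_lt_aleph0_iff.1 (lt_of_le_of_lt hrk Cardinal.natCast_lt_aleph0)
  exact ⟨hfin, Module.finrank_le_of_rank_le hrk⟩

end MbH
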